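import Pool.Agent.LE.StmtsM
import Pool.Agent.Helper3_LEW.CST

/-!
# CSZ (helper3): the moments of the positive part of `- log |G|` at a complex energy
-/

set_option autoImplicit false
set_option linter.unusedSectionVars false

open scoped Topology ENNReal
open MeasureTheory Filter ProbabilityTheory

noncomputable section

namespace Pool.Agent.LE.MN.H3

open Pool.Agent.Anderson hiding box mem_box card_box
open Pool.Agent.Loc Pool.Agent.Mob Pool.Agent.Helper54.Bal Pool.Agent.LY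
  Pool.Agent.LE.H54 Pool.Agent.LE.H26U Pool.Agent.LE.H3W

variable {d : ℕ}

/-- the absolute value of the Green function -/
def nz (Λ : Finset (Site d)) (z : ℂ) (x y : Site d) (V : Site d → ℝ) : ℝ := ‖gz V Λ z x y‖

theorem nz_nonneg (Λ : Finset (Site d)) (z : ℂ) (x y : Site d) (V : Site d → ℝ) :
    0 ≤ nz Λ z x y V := norm_nonneg _

theorem nz_KB {Λ : Finset (Site d)} (z : ℂ) {x y : Site d} (hx : x ∈ Λ) (hy : y ∈ Λ)
    (V : Site d → ℝ) : ‖KB Λ z V ⟨x, hx⟩ ⟨y, hy⟩‖ = nz Λ z x y V := by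
  rw [KB_eq_gz, norm_neg]
  rfl

theorem measurable_nz (Λ : Finset (Site d)) (z : ℂ) (x y : Site d) : Measurable (nz Λ z x y) := by
  by_cases h : x ∈ Λ ∧ y ∈ Λ
  · have e : nz Λ z x y = fun V => ‖KB Λ z V ⟨x, h.1⟩ ⟨y, h.2⟩‖ := by
      funext V
      exact (nz_KB z h.1 h.2 V).symm
    rw [e]
    exact (measurable_KB Λ z _ _).norm
  · have e : nz Λ z x y = fun _ => 0 := by
      funext V
      unfold nz gz
      rw [dif_neg h, norm_zero]
    rw [e]
    exact measurable_const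

theorem nz_congr {Λ : Finset (Site d)} {V V' : Site d → ℝ} (h : ∀ x ∈ Λ, V x = V' x) (z : ℂ)
    (x y : Site d) : nz Λ z x y V = nz Λ z x y V' := by
  have e : HC V Λ = HC V' Λ := by
    ext a b
    simp only [HC, HM, Matrix.map_apply, Matrix.of_apply]
    rw [h a a.2]
  unfold nz gz
  rw [e]

/-- the negative moment -/
theorem lowZ (hd : 1 ≤ d) : ∃ K : ℝ, 0 < K ∧ ∀ (σ : ℝ) (z : ℂ), σ ≠ 0 → |σ| ≤ 1 →
    |z.re| ≤ 2 * d + 2 → 0 < z.im → z.im ≤ 1 →
    ∀ (Λ : Finset (Site d)) (x y : Site d), x ∈ Λ → y ∈ Λ → (x = y ∨ hop x y ≠ 0) →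
    ∫⁻ V, (ENNReal.ofReal (nz Λ z x y V)) ^ (-(1 / 4) : ℝ) ∂(PL (gl σ) Λ) ≤
      ENNReal.ofReal (K * (1 / |σ|) ^ (5 ^ d)) := by
  set M : ℝ := 32 * (d : ℝ) ^ 2 + 4 + (2 * d + 3) with hM
  have hM0 : 0 < M := by positivity
  set K : ℝ≥0∞ := (ENNReal.ofReal M * (2 + mom1 (gl 1) + ENNReal.ofReal 3)) ^ (5 ^ d) *
      (ENNReal.ofReal (1 / (16 * M ^ 2))) ^ (-(1 / 4) : ℝ) with hK
  have hKt : K ≠ ∞ := by
    refine ENNReal.mul_ne_top (ENNReal.pow_ne_top (ENNReal.mul_ne_top ENNReal.ofReal_ne_top ?_)) ?_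
    · refine ENNReal.add_ne_top.2 ⟨ENNReal.add_ne_top.2 ⟨by norm_num, mom1_gl 1⟩,
        ENNReal.ofReal_ne_top⟩
    · refine ENNReal.rpow_ne_top_of_ne_zero ?_ ENNReal.ofReal_ne_top
      rw [Ne, ENNReal.ofReal_eq_zero, not_le]
      positivity
  refine ⟨K.toReal + 1, by positivity, ?_⟩
  intro σ z hσ hs hre him him1 Λ x y hx hy hxy
  have hzM : ‖z‖ ≤ M := by
    refine (Complex.norm_le_abs_re_add_abs_im z).trans ?_
    rw [abs_of_pos him, hM]
    have : 0 ≤ 32 * (d : ℝ) ^ 2 := by positivity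
    linarith
  have h1 : ∫⁻ V, (ENNReal.ofReal (nz Λ z x y V)) ^ (-(1 / 4) : ℝ) ∂(PL (gl σ) Λ) ≤
      Clow d (gl σ) (1 / |σ|) M := by
    obtain ⟨S, hS, hb⟩ := low_marg (bddDens_gl hσ) (M := M) (by rw [hM]; linarith) Λ him hzM
      (x := ⟨x, hx⟩) (y := ⟨y, hy⟩) (by
        rcases hxy with rfl | h
        · left; rfl
        · right; exact h)
    have hm : Measurable fun V => (en (KB Λ z V ⟨x, hx⟩ ⟨y, hy⟩)) ^ (-(1 / 4) : ℝ) :=
      ((measurable_KB Λ _ _ _).norm.ennreal_ofReal).pow_const _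
    have h2 := PL_le_of_marg hS hm hb
    refine le_trans (le_of_eq ?_) h2
    refine lintegral_congr fun V => ?_
    unfold en
    rw [nz_KB]
  refine h1.trans ?_
  have h2 : Clow d (gl σ) (1 / |σ|) M ≤ ENNReal.ofReal (1 / |σ|) ^ (5 ^ d) * K := by
    unfold Clow
    calc CC (gl σ) (1 / |σ|) M ^ (5 ^ d) * (ENNReal.ofReal (1 / (16 * M ^ 2))) ^ (-(1 / 4) : ℝ)
        ≤ (ENNReal.ofReal (1 / |σ|) * (ENNReal.ofReal M * (2 + mom1 (gl 1) +
          ENNReal.ofReal 3))) ^ (5 ^ d) *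
          (ENNReal.ofReal (1 / (16 * M ^ 2))) ^ (-(1 / 4) : ℝ) := by
          gcongr
          exact CC_le' hσ hs M
      _ = _ := by
          rw [mul_pow, mul_assoc]
  refine h2.trans ?_
  rw [← ENNReal.ofReal_pow (by positivity), ← ENNReal.ofReal_toReal hKt,
    ← ENNReal.ofReal_mul (by positivity)]
  apply ENNReal.ofReal_le_ofReal
  rw [ENNReal.toReal_ofReal ENNReal.toReal_nonneg, mul_comm]
  apply mul_le_mul_of_nonneg_right _ (by positivity)
  linarith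

/-- the norm at neighbouring sites -/
theorem nearZ {K σ : ℝ} {z : ℂ} (hK : 0 < K) (hσ : σ ≠ 0) {p : ℝ} (hp : 0 < p)
    (Λ : Finset (Site d)) (x y : Site d)
    (h : ∫⁻ V, (ENNReal.ofReal (nz Λ z x y V)) ^ (-(1 / 4) : ℝ) ∂(PL (gl σ) Λ) ≤
      ENNReal.ofReal (K * (1 / |σ|) ^ (5 ^ d))) :
    Nn (PL (gl σ) Λ) p (fun V => Dp (nz Λ z x y V)) ≤
      ENNReal.ofReal (((4 * p) ^ p * (K * (1 / |σ|) ^ (5 ^ d))) ^ (1 / p)) := by
  have hs : 0 < |σ| := abs_pos.2 hσ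
  rw [← ENNReal.ofReal_rpow_of_nonneg (by positivity) (by positivity)]
  apply Nn_le hp
  calc ∫⁻ V, (Dp (nz Λ z x y V)) ^ p ∂(PL (gl σ) Λ)
      ≤ ∫⁻ V, ENNReal.ofReal ((4 * p) ^ p) * (ENNReal.ofReal (nz Λ z x y V)) ^ (-(1 / 4) : ℝ)
          ∂(PL (gl σ) Λ) := lintegral_mono fun V => by
            have := Dp_rpow_le hp (nz Λ z x y V)
            rwa [abs_of_nonneg (nz_nonneg _ _ _ _ _)] at this
    _ = ENNReal.ofReal ((4 * p) ^ p) * ∫⁻ V, (ENNReal.ofReal (nz Λ z x y V)) ^ (-(1 / 4) : ℝ)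
          ∂(PL (gl σ) Λ) := lintegral_const_mul' _ _ ENNReal.ofReal_ne_top
    _ ≤ ENNReal.ofReal ((4 * p) ^ p) * ENNReal.ofReal (K * (1 / |σ|) ^ (5 ^ d)) := by
        gcongr
    _ = _ := by rw [← ENNReal.ofReal_mul (by positivity)]

/-- one site -/
theorem oneZ {σ : ℝ} (hσ : σ ≠ 0) {z : ℂ} (hz : 0 < z.im) {Λ : Finset (Site d)} {x u y : Site d}
    (hx : x ∈ Λ) (hu : u ∈ Λ) (hy : y ∈ Λ) {τ : ℝ} (hτ : 0 < τ) :
    PL (gl σ) Λ {V | τ * nz Λ z x y V < nz Λ z x u V * nz Λ z u y V} ≤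
      ENNReal.ofReal (8 * (1 / |σ|) / τ) := by
  have hm : MeasurableSet {V | τ * nz Λ z x y V < nz Λ z x u V * nz Λ z u y V} :=
    measurableSet_lt ((measurable_nz Λ z x y).const_mul _)
      ((measurable_nz Λ z x u).mul (measurable_nz Λ z u y))
  rw [← lintegral_indicator_one hm]
  refine PL_le_of_marg (S := {u}) (Finset.singleton_subset_iff.2 hu)
    (measurable_one.indicator hm) (fun V => ?_)
  have h1 := one_marg (bddDens_gl hσ) Λ hz ⟨u, hu⟩ ⟨x, hx⟩ ⟨y, hy⟩ hτ V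
  simp only [nz_KB] at h1
  exact h1

/-- the ratio -/
theorem ratioZ {σ : ℝ} (hσ : σ ≠ 0) {z : ℂ} (hz : 0 < z.im) {p : ℝ} (hp : 0 < p)
    {Λ : Finset (Site d)} {x u y : Site d} (hx : x ∈ Λ) (hu : u ∈ Λ) (hy : y ∈ Λ) :
    Nn (PL (gl σ) Λ) p (fun V => Rp (nz Λ z x u V) (nz Λ z u y V) (nz Λ z x y V)) ≤
      ENNReal.ofReal (((2 * p) ^ p * (1 + 8 * (1 / |σ|))) ^ (1 / p)) := by
  set ρ : ℝ := 1 / |σ| with hρdef
  have hν := bddDens_gl hσ
  have hρ : 0 < ρ := hν.1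
  rw [← ENNReal.ofReal_rpow_of_nonneg (by positivity) (by positivity)]
  apply Nn_le hp
  have hone : ∀ τ : ℝ, 0 < τ → PL (gl σ) Λ {V | τ * nz Λ z x y V < nz Λ z x u V *
      nz Λ z u y V} ≤ ENNReal.ofReal (8 * ρ / τ) := fun τ hτ => oneZ hσ hz hx hu hy hτ
  have hnull : PL (gl σ) Λ {V | nz Λ z x y V = 0 ∧ nz Λ z x u V * nz Λ z u y V ≠ 0} = 0 := by
    have h1 : ∀ k : ℕ, PL (gl σ) Λ {V | nz Λ z x y V = 0 ∧ nz Λ z x u V * nz Λ z u y V ≠ 0} ≤
        ENNReal.ofReal (8 * ρ / ((k : ℝ) + 1)) := by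
      intro k
      refine (measure_mono ?_).trans (hone ((k : ℝ) + 1) (by positivity))
      rintro V ⟨h2, h3⟩
      rw [Set.mem_ofPred_eq, h2, mul_zero]
      exact lt_of_le_of_ne (mul_nonneg (nz_nonneg _ _ _ _ _) (nz_nonneg _ _ _ _ _)) (Ne.symm h3)
    have h2 : Tendsto (fun k : ℕ => ENNReal.ofReal (8 * ρ / ((k : ℝ) + 1))) atTop
        (𝓝 (ENNReal.ofReal 0)) := by
      apply ENNReal.tendsto_ofReal
      have := (tendsto_one_div_add_atTop_nhds_zero_nat (𝕜 := ℝ)).const_mul (8 * ρ)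
      rw [mul_zero] at this
      refine this.congr fun k => ?_
      ring
    rw [ENNReal.ofReal_zero] at h2
    exact le_antisymm (ge_of_tendsto' h2 h1) zero_le
  set f : (Site d → ℝ) → ℝ := fun V => nz Λ z x u V * nz Λ z u y V / nz Λ z x y V with hf
  have hf0 : ∀ V, 0 ≤ f V := fun V =>
    div_nonneg (mul_nonneg (nz_nonneg _ _ _ _ _) (nz_nonneg _ _ _ _ _)) (nz_nonneg _ _ _ _ _)
  have hfm : Measurable f :=
    ((measurable_nz Λ z x u).mul (measurable_nz Λ z u y)).div (measurable_nz Λ z x y)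
  have hweak : ∀ τ : ℝ, 0 < τ → PL (gl σ) Λ {V | τ < |f V|} ≤ ENNReal.ofReal (8 * ρ / τ) := by
    intro τ hτ
    refine (measure_mono ?_).trans (hone τ hτ)
    intro V hV
    rw [Set.mem_ofPred_eq, abs_of_nonneg (hf0 V)] at hV
    rw [Set.mem_ofPred_eq]
    have hne : nz Λ z x y V ≠ 0 := by
      intro h1
      rw [hf] at hV
      simp only [h1, div_zero] at hV
      linarith
    have hpos : 0 < nz Λ z x y V := lt_of_le_of_ne (nz_nonneg _ _ _ _ _) (Ne.symm hne)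
    exact (lt_div_iff₀ hpos).1 hV
  have hint := weak_sqrt hfm (B := Set.univ) (c := 8 * ρ) (by positivity) hweak (a := 1) one_pos
  rw [Measure.restrict_univ, measure_univ, mul_one, div_one,
    ← ENNReal.ofReal_add (by norm_num) (by positivity)] at hint
  have hae : ∀ᵐ V ∂(PL (gl σ) Λ), (Rp (nz Λ z x u V) (nz Λ z u y V) (nz Λ z x y V)) ^ p ≤
      ENNReal.ofReal ((2 * p) ^ p) * ENNReal.ofReal (√|f V|) := by
    have h1 : ∀ᵐ V ∂(PL (gl σ) Λ), ¬ (nz Λ z x y V = 0 ∧ nz Λ z x u V * nz Λ z u y V ≠ 0) := by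
      rw [ae_iff]
      simpa only [not_not] using hnull
    filter_upwards [h1] with V hV
    rw [abs_of_nonneg (hf0 V)]
    by_cases hc : nz Λ z x y V = 0
    · have h2 : nz Λ z x u V * nz Λ z u y V = 0 := by
        by_contra h3
        exact hV ⟨hc, h3⟩
      unfold Rp
      rw [if_pos hc, if_pos h2, ENNReal.zero_rpow_of_pos hp]
      exact zero_le
    · have h4 := Rp_rpow_le hp (a := nz Λ z x u V) (b := nz Λ z u y V) hc
      rwa [abs_of_nonneg (nz_nonneg _ _ _ _ _), abs_of_nonneg (nz_nonneg _ _ _ _ _),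
        abs_of_nonneg (nz_nonneg _ _ _ _ _)] at h4
  calc _ ≤ ∫⁻ V, ENNReal.ofReal ((2 * p) ^ p) * ENNReal.ofReal (√|f V|) ∂(PL (gl σ) Λ) :=
        lintegral_mono_ae hae
    _ = ENNReal.ofReal ((2 * p) ^ p) * ∫⁻ V, ENNReal.ofReal (√|f V|) ∂(PL (gl σ) Λ) :=
        lintegral_const_mul' _ _ ENNReal.ofReal_ne_top
    _ ≤ ENNReal.ofReal ((2 * p) ^ p) * ENNReal.ofReal (1 + 8 * ρ) := by gcongr
    _ = _ := by rw [← ENNReal.ofReal_mul (by positivity)]

/-- along a path in the cube -/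
theorem pathZ {σ C1 C2 p : ℝ} {z : ℂ} {N : ℕ} (hp : 1 ≤ p) (hC1 : 0 ≤ C1) (hC2 : 0 ≤ C2)
    (h1 : ∀ x y : Site d, x ∈ box (0 : Site d) N → y ∈ box (0 : Site d) N →
      (x = y ∨ hop x y ≠ 0) →
      Nn (PL (gl σ) (box (0 : Site d) N)) p (fun V => Dp (nz (box (0 : Site d) N) z x y V)) ≤
        ENNReal.ofReal C1)
    (h2 : ∀ x u y : Site d, x ∈ box (0 : Site d) N → u ∈ box (0 : Site d) N →
      y ∈ box (0 : Site d) N → Nn (PL (gl σ) (box (0 : Site d) N)) p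
      (fun V => Rp (nz (box (0 : Site d) N) z x u V) (nz (box (0 : Site d) N) z u y V)
        (nz (box (0 : Site d) N) z x y V)) ≤ ENNReal.ofReal C2)
    {c : Site d} (hc : c ∈ box (0 : Site d) N) (m : ℕ) :
    ∀ s : Site d, l1 c s = m → s ∈ box (0 : Site d) N →
      Nn (PL (gl σ) (box (0 : Site d) N)) p (fun V => Dp (nz (box (0 : Site d) N) z c s V)) ≤
        ENNReal.ofReal ((m + 1) * (C1 + C2)) := by
  set Λ := box (0 : Site d) N with hΛ
  induction m with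
  | zero =>
    intro s hs hn
    have hsc : s = c := by
      by_contra hne
      obtain ⟨s', -, hs', -⟩ := closer_in hc hn hne
      omega
    subst hsc
    refine (h1 s s hc hc (Or.inl rfl)).trans (ENNReal.ofReal_le_ofReal ?_)
    push_cast
    linarith
  | succ m ih =>
    intro s hs hn
    have hne : s ≠ c := by
      rintro rfl
      unfold l1 at hs
      simp at hs
    obtain ⟨s', hsm', hs', hhop⟩ := closer_in hc hn hne
    have hm := ih s' (by omega) hsm'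
    have mD : ∀ x y, Measurable fun V : Site d → ℝ => Dp (nz Λ z x y V) := fun x y =>
      measurable_Dp.comp (measurable_nz Λ z x y)
    have mR : Measurable fun V : Site d → ℝ =>
        Rp (nz Λ z c s' V) (nz Λ z s' s V) (nz Λ z c s V) :=
      measurable_Rp (measurable_nz Λ z _ _) (measurable_nz Λ z _ _) (measurable_nz Λ z _ _)
    calc Nn (PL (gl σ) Λ) p (fun V => Dp (nz Λ z c s V))
        ≤ Nn (PL (gl σ) Λ) p (fun V => (Dp (nz Λ z c s' V) + Dp (nz Λ z s' s V)) +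
            Rp (nz Λ z c s' V) (nz Λ z s' s V) (nz Λ z c s V)) :=
          Nn_mono (by linarith) fun V => Dp_le _ _ _
      _ ≤ (Nn (PL (gl σ) Λ) p (fun V => Dp (nz Λ z c s' V)) +
            Nn (PL (gl σ) Λ) p (fun V => Dp (nz Λ z s' s V))) +
            Nn (PL (gl σ) Λ) p (fun V => Rp (nz Λ z c s' V) (nz Λ z s' s V) (nz Λ z c s V)) :=
          (Nn_add hp ((mD _ _).add (mD _ _)) mR).trans
            (add_le_add (Nn_add hp (mD _ _) (mD _ _)) le_rfl)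
      _ ≤ (ENNReal.ofReal ((m + 1) * (C1 + C2)) + ENNReal.ofReal C1) + ENNReal.ofReal C2 := by
          gcongr
          · exact h1 s' s hsm' hn (Or.inr hhop)
          · exact h2 c s' s hc hsm' hn
      _ = _ := by
          rw [← ENNReal.ofReal_add (by positivity) hC1, ← ENNReal.ofReal_add (by positivity) hC2]
          congr 1
          push_cast
          ring

/-- CSZ -/
theorem csz : CszStmt := by
  intro d hd
  obtain ⟨K, hK, hlow⟩ := lowZ hd
  refine ⟨(5 ^ d : ℕ), by exact_mod_cast Nat.one_le_pow _ _ (by norm_num), ?_⟩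
  intro q hq
  have hq1 : (1 : ℝ) ≤ q := by exact_mod_cast hq
  have hq0 : (0 : ℝ) < q := by linarith
  set qq : ℝ := (q : ℝ) with hqq
  refine ⟨(d : ℝ) ^ q * (2 ^ q * ((4 * qq) ^ qq * K + (2 * qq) ^ qq * 9)), ?_, ?_⟩
  · have : (0 : ℝ) < d := by exact_mod_cast hd
    positivity
  intro σ z N x y hσ hs hre him him1 hx hy
  have hs0 : 0 < |σ| := abs_pos.2 hσ
  have hL : 1 ≤ 1 / |σ| := by
    rw [le_div_iff₀ hs0, one_mul]
    exact hs
  have hd1 : (1 : ℝ) ≤ d := by exact_mod_cast hd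
  set Λ := box (0 : Site d) N with hΛ
  set P : ℝ := (1 / |σ|) ^ (5 ^ d) with hP
  have hP1 : 1 / |σ| ≤ P := by
    rw [hP]
    exact le_self_pow₀ hL (by positivity)
  have hP0 : 0 < P := by positivity
  set a : ℝ := (4 * qq) ^ qq * (K * P) with ha
  set b : ℝ := (2 * qq) ^ qq * (1 + 8 * (1 / |σ|)) with hb
  have ha0 : 0 ≤ a := by positivity
  have hb0 : 0 ≤ b := by positivity
  have hab : a + b ≤ ((4 * qq) ^ qq * K + (2 * qq) ^ qq * 9) * P := by
    have h1 : 1 + 8 * (1 / |σ|) ≤ 9 * P := by linarith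
    have h2 : b ≤ (2 * qq) ^ qq * (9 * P) := mul_le_mul_of_nonneg_left h1 (by positivity)
    calc a + b ≤ (4 * qq) ^ qq * (K * P) + (2 * qq) ^ qq * (9 * P) := by linarith
      _ = _ := by ring
  have mD : Measurable fun V : Site d → ℝ => Dp (nz Λ z x y V) :=
    measurable_Dp.comp (measurable_nz Λ z x y)
  have hp := pathZ (σ := σ) (z := z) (p := qq) (N := N) hq1 (C1 := a ^ (1 / qq))
    (C2 := b ^ (1 / qq)) (by positivity) (by positivity)
    (fun x y hx hy hxy => nearZ hK hσ hq0 _ x y (hlow σ z hσ hs hre him him1 _ x y hx hy hxy))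
    (fun x u y hx hu hy => ratioZ hσ him hq0 hx hu hy) hx (l1 x y) y rfl hy
  have hDL : ∀ V : Site d → ℝ, (ENNReal.ofReal (DZ Λ z V x y)) ^ q ≤
      (Dp (nz Λ z x y V)) ^ qq := by
    intro V
    rw [hqq, ENNReal.rpow_natCast]
    apply pow_le_pow_left'
    unfold DZ Dp
    split_ifs
    · exact le_top
    · rw [abs_of_nonneg (nz_nonneg _ _ _ _ _)]
      exact le_rfl
  calc ∫⁻ V, (ENNReal.ofReal (DZ Λ z V x y)) ^ q ∂(PP d (gl σ))
      ≤ ∫⁻ V, (Dp (nz Λ z x y V)) ^ qq ∂(PP d (gl σ)) := lintegral_mono hDL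
    _ = ∫⁻ V, (Dp (nz Λ z x y V)) ^ qq ∂(PL (gl σ) Λ) :=
        lint_PP Λ (mD.pow_const _) (fun V V' hV => by rw [nz_congr hV])
    _ = (Nn (PL (gl σ) Λ) qq (fun V => Dp (nz Λ z x y V))) ^ qq := (Nn_rpow hq0 _).symm
    _ ≤ (ENNReal.ofReal (((l1 x y : ℝ) + 1) * (a ^ (1 / qq) + b ^ (1 / qq)))) ^ qq :=
        ENNReal.rpow_le_rpow hp hq0.le
    _ ≤ _ := by
        rw [ENNReal.ofReal_rpow_of_nonneg (by positivity) hq0.le]
        apply ENNReal.ofReal_le_ofReal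
        have h3 : (l1 x y : ℝ) ≤ d * sd x y := by exact_mod_cast l1_le x y le_rfl
        have h5 : ((l1 x y : ℝ) + 1) ≤ d * ((sd x y : ℝ) + 1) := by linarith
        have h6 : (((l1 x y : ℝ) + 1)) ^ qq ≤ (d * ((sd x y : ℝ) + 1)) ^ qq :=
          Real.rpow_le_rpow (by positivity) h5 hq0.le
        have h7 := add_rpow_root ha0 hb0 hq0
        have h8 : |σ| ^ (-((5 ^ d : ℕ) : ℝ)) = P := by
          rw [Real.rpow_neg hs0.le, Real.rpow_natCast, hP, one_div, inv_pow]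
        rw [h8, Real.mul_rpow (by positivity) (by positivity)]
        have h9 : (d * ((sd x y : ℝ) + 1)) ^ qq = (d : ℝ) ^ q * ((sd x y : ℝ) + 1) ^ q := by
          rw [hqq, Real.rpow_natCast, mul_pow]
        have h10 : (2 : ℝ) ^ qq = 2 ^ q := by rw [hqq, Real.rpow_natCast]
        rw [h9] at h6
        rw [h10] at h7
        calc ((l1 x y : ℝ) + 1) ^ qq * (a ^ (1 / qq) + b ^ (1 / qq)) ^ qq
            ≤ ((d : ℝ) ^ q * ((sd x y : ℝ) + 1) ^ q) * (2 ^ q * (a + b)) :=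
              mul_le_mul h6 h7 (by positivity) (by positivity)
          _ ≤ ((d : ℝ) ^ q * ((sd x y : ℝ) + 1) ^ q) *
              (2 ^ q * (((4 * qq) ^ qq * K + (2 * qq) ^ qq * 9) * P)) := by gcongr
          _ = _ := by ring

end Pool.Agent.LE.MN.H3
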