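import Pool.Agent.LE.StmtsM

/-!
# LNK (helper3): from the probability of a link to its mean cost
-/

set_option autoImplicit false
set_option linter.unusedSectionVars false

open scoped Topology ENNReal
open MeasureTheory Filter ProbabilityTheory

noncomputable section

namespace Pool.Agent.LE.MN.H3

open Pool.Agent.Anderson hiding box mem_box card_box
open Pool.Agent.Loc Pool.Agent.Mob Pool.Agent.Helper54.Bal Pool.Agent.LY

variable {d : ℕ}

theorem measurable_DZ (Λ : Finset (Site d)) (z : ℂ) (x y : Site d) :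
    Measurable fun V => DZ Λ z V x y := by
  have h0 : Measurable fun V => ‖gz V Λ z x y‖ := by
    by_cases h : x ∈ Λ ∧ y ∈ Λ
    · have e : (fun V => ‖gz V Λ z x y‖) = fun V => ‖KB Λ z V ⟨x, h.1⟩ ⟨y, h.2⟩‖ := by
        funext V
        rw [KB_eq_gz, norm_neg]
      rw [e]
      exact (measurable_KB Λ z _ _).norm
    · have e : (fun V => ‖gz V Λ z x y‖) = fun _ => (0 : ℝ) := by
        funext V
        unfold gz
        rw [dif_neg h, norm_zero]
      rw [e]
      exact measurable_const
  exact (Real.measurable_log.comp h0).neg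

theorem sd_step (x : Site d) (i : Fin d) (L : ℕ) : sd x (x + pt i L) ≤ L := by
  rw [sd_le_iff]
  intro j
  rw [Pi.add_apply]
  unfold pt
  by_cases hj : j = i
  · subst hj
    rw [Pi.single_eq_same]
    have e : x j - (x j + (L : ℤ)) = -(L : ℤ) := by ring
    rw [e, abs_neg, abs_of_nonneg (by positivity)]
  · rw [Pi.single_eq_of_ne hj, add_zero, sub_self, abs_zero]
    positivity

theorem mem_step {a x : Site d} {R : ℕ} (i : Fin d) (L : ℕ) (hx : x ∈ box a R) :
    x + pt i L ∈ box (a + pt i L) R := by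
  rw [mem_box, sd_le_iff] at hx ⊢
  intro j
  have := hx j
  rw [Pi.add_apply, Pi.add_apply]
  have e : a j + pt i L j - (x j + pt i L j) = a j - x j := by ring
  rw [e]
  exact this

theorem sqrt_aux {P S K q : ℝ} (hS : 0 ≤ S) (hK : 0 ≤ K) (hq : 0 ≤ q) (hP : P = S ^ 2 * K * q)
    (h : P ≤ 1) : S * (K ^ (1 / 2 : ℝ) * q ^ (1 / 2 : ℝ)) ≤ 1 := by
  have h1 : S * (K ^ (1 / 2 : ℝ) * q ^ (1 / 2 : ℝ)) = √P := by
    rw [← Real.sqrt_eq_rpow, ← Real.sqrt_eq_rpow, ← Real.sqrt_mul hK, hP, mul_assoc,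
      Real.sqrt_mul (show 0 ≤ S ^ 2 by positivity), Real.sqrt_sq hS]
  rw [h1]
  exact Real.sqrt_le_one.2 h

/-- LNK -/
theorem lnk (csz : CszStmt) : LnkStmt := by
  intro d hd
  obtain ⟨A, hA, h⟩ := csz d hd
  obtain ⟨C₁, hC₁, h1⟩ := h 1 le_rfl
  obtain ⟨C₂, hC₂, h2⟩ := h 2 (by norm_num)
  refine ⟨A, C₁ + C₂ + 1, hA, by linarith, ?_⟩
  intro σ z N R L a i hσ hs hre him him1 hbox
  have hσ0 : 0 < |σ| := abs_pos.2 hσ
  set P := |σ| ^ (-A) with hP
  have hP0 : 0 < P := Real.rpow_pos_of_pos hσ0 _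
  set Λ := box (0 : Site d) N with hΛ
  have mf : ∀ x y, Measurable fun V => ENNReal.ofReal (DZ Λ z V x y) := fun x y =>
    (measurable_DZ Λ z x y).ennreal_ofReal
  have hcard : ((box a R).card : ℝ) = (2 * R + 1 : ℝ) ^ d := by
    rw [card_box]
    push_cast
    rfl
  have hcard' : ((box a R).card : ℝ≥0∞) = ENNReal.ofReal ((2 * R + 1 : ℝ) ^ d) := by
    rw [← hcard, ENNReal.ofReal_natCast]
  constructor
  · intro t q ht hq hbox' hCq hprob
    set B := toMeasurable (PP d (gl σ)) {V | ¬ LC V Λ z (box a R) (box (a + pt i L) R) ≤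
      ENNReal.ofReal t} with hBdef
    have hBm : MeasurableSet B := measurableSet_toMeasurable _ _
    have hB : PP d (gl σ) B ≤ ENNReal.ofReal q := by
      rw [hBdef, measure_toMeasurable]
      exact hprob
    have mB : Measurable (B.indicator (1 : (Site d → ℝ) → ℝ≥0∞)) := measurable_one.indicator hBm
    have key : ∀ V, LC V Λ z (box a R) (box (a + pt i L) R) ≤ ENNReal.ofReal t +
        ∑ x ∈ box a R, ENNReal.ofReal (DZ Λ z V x (x + pt i L)) * B.indicator 1 V := by
      intro V
      by_cases hV : LC V Λ z (box a R) (box (a + pt i L) R) ≤ ENNReal.ofReal t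
      · exact hV.trans le_self_add
      · have hVB : V ∈ B := subset_toMeasurable _ _ hV
        refine le_trans ?_ le_add_self
        rw [Set.indicator_of_mem hVB]
        simp only [Pi.one_apply, mul_one]
        unfold LC
        refine Finset.sup_le fun x hx => ?_
        refine (Finset.inf_le (mem_step i L hx)).trans ?_
        exact Finset.single_le_sum (f := fun x => ENNReal.ofReal (DZ Λ z V x (x + pt i L)))
          (fun _ _ => zero_le) hx
    set K : ℝ := C₂ * P * ((L : ℝ) + 1) ^ 2 with hK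
    have hK0 : 0 ≤ K := by positivity
    have hterm : ∀ x ∈ box a R, ∫⁻ V, ENNReal.ofReal (DZ Λ z V x (x + pt i L)) * B.indicator 1 V
        ∂(PP d (gl σ)) ≤ ENNReal.ofReal (K ^ (1 / 2 : ℝ) * q ^ (1 / 2 : ℝ)) := by
      intro x hx
      have hCS := ENNReal.lintegral_mul_le_Lp_mul_Lq (PP d (gl σ)) Real.HolderConjugate.two_two
        (mf x (x + pt i L)).aemeasurable mB.aemeasurable
      refine le_trans hCS ?_
      rw [ENNReal.ofReal_mul (by positivity)]
      refine mul_le_mul' ?_ ?_
      · rw [← ENNReal.ofReal_rpow_of_nonneg hK0 (by norm_num)]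
        refine ENNReal.rpow_le_rpow ?_ (by norm_num)
        have h3 := h2 σ z N x (x + pt i L) hσ hs hre him him1 (hbox hx)
          (hbox' (mem_step i L hx))
        have e3 : ∫⁻ V, ENNReal.ofReal (DZ Λ z V x (x + pt i L)) ^ (2 : ℝ) ∂(PP d (gl σ)) =
            ∫⁻ V, ENNReal.ofReal (DZ Λ z V x (x + pt i L)) ^ 2 ∂(PP d (gl σ)) := by
          refine lintegral_congr fun V => ?_
          rw [ENNReal.rpow_two]
        rw [e3]
        refine h3.trans (ENNReal.ofReal_le_ofReal ?_)
        have h4 : (sd x (x + pt i L) : ℝ) ≤ L := by exact_mod_cast sd_step x i L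
        have h5 : (0 : ℝ) ≤ sd x (x + pt i L) := Nat.cast_nonneg _
        rw [hK, hP]
        gcongr
      · rw [← ENNReal.ofReal_rpow_of_nonneg hq (by norm_num)]
        refine ENNReal.rpow_le_rpow ?_ (by norm_num)
        have e4 : ∫⁻ V, (B.indicator (1 : (Site d → ℝ) → ℝ≥0∞) V) ^ (2 : ℝ) ∂(PP d (gl σ)) =
            PP d (gl σ) B := by
          rw [← lintegral_indicator_one hBm]
          refine lintegral_congr fun V => ?_
          by_cases hV : V ∈ B
          · rw [Set.indicator_of_mem hV]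
            simp
          · rw [Set.indicator_of_notMem hV]
            simp
        rw [e4]
        exact hB
    have mT : ∀ x ∈ box a R, Measurable fun V => ENNReal.ofReal (DZ Λ z V x (x + pt i L)) *
        B.indicator (1 : (Site d → ℝ) → ℝ≥0∞) V := fun x _ => (mf x _).mul mB
    calc ∫⁻ V, LC V Λ z (box a R) (box (a + pt i L) R) ∂(PP d (gl σ))
        ≤ ∫⁻ V, (ENNReal.ofReal t + ∑ x ∈ box a R, ENNReal.ofReal (DZ Λ z V x (x + pt i L)) *
            B.indicator 1 V) ∂(PP d (gl σ)) := lintegral_mono key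
      _ = ENNReal.ofReal t + ∑ x ∈ box a R, ∫⁻ V, ENNReal.ofReal (DZ Λ z V x (x + pt i L)) *
            B.indicator 1 V ∂(PP d (gl σ)) := by
          rw [lintegral_add_left measurable_const, lintegral_const, measure_univ, mul_one,
            lintegral_finsetSum _ mT]
      _ ≤ ENNReal.ofReal t + ∑ x ∈ box a R, ENNReal.ofReal (K ^ (1 / 2 : ℝ) * q ^ (1 / 2 : ℝ)) := by
          gcongr with x hx
          exact hterm x hx
      _ = ENNReal.ofReal t + ENNReal.ofReal ((2 * R + 1 : ℝ) ^ d *
            (K ^ (1 / 2 : ℝ) * q ^ (1 / 2 : ℝ))) := by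
          rw [Finset.sum_const, nsmul_eq_mul, hcard', ← ENNReal.ofReal_mul (by positivity)]
      _ ≤ ENNReal.ofReal t + ENNReal.ofReal 1 := by
          gcongr
          refine sqrt_aux (P := ((2 * R + 1 : ℝ) ^ d) ^ 2 * K * q) (by positivity) hK0 hq rfl ?_
          refine le_trans ?_ hCq
          have e5 : ((2 * R + 1 : ℝ) ^ d) ^ 2 * K * q = C₂ * P * (2 * R + 1 : ℝ) ^ (2 * d) *
              ((L : ℝ) + 1) ^ 2 * q := by
            rw [hK, ← pow_mul, mul_comm d 2]
            ring
          rw [e5]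
          gcongr
          linarith
      _ = ENNReal.ofReal (t + 1) := (ENNReal.ofReal_add ht (by norm_num)).symm
  · have key : ∀ V, (box a R).sup (fun x => ENNReal.ofReal (DZ Λ z V x x)) ≤
        ∑ x ∈ box a R, ENNReal.ofReal (DZ Λ z V x x) := by
      intro V
      refine Finset.sup_le fun x hx => ?_
      exact Finset.single_le_sum (f := fun x => ENNReal.ofReal (DZ Λ z V x x))
        (fun _ _ => zero_le) hx
    calc ∫⁻ V, (box a R).sup (fun x => ENNReal.ofReal (DZ Λ z V x x)) ∂(PP d (gl σ))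
        ≤ ∫⁻ V, ∑ x ∈ box a R, ENNReal.ofReal (DZ Λ z V x x) ∂(PP d (gl σ)) := lintegral_mono key
      _ = ∑ x ∈ box a R, ∫⁻ V, ENNReal.ofReal (DZ Λ z V x x) ∂(PP d (gl σ)) :=
          lintegral_finsetSum _ fun x _ => mf x x
      _ ≤ ∑ x ∈ box a R, ENNReal.ofReal (C₁ * P) := by
          refine Finset.sum_le_sum fun x hx => ?_
          have h3 := h1 σ z N x x hσ hs hre him him1 (hbox hx) (hbox hx)
          simp only [pow_one, sd_self, Nat.cast_zero, zero_add, mul_one] at h3
          exact h3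
      _ = ENNReal.ofReal ((2 * R + 1 : ℝ) ^ d * (C₁ * P)) := by
          rw [Finset.sum_const, nsmul_eq_mul, hcard', ← ENNReal.ofReal_mul (by positivity)]
      _ ≤ _ := by
          apply ENNReal.ofReal_le_ofReal
          have e6 : (C₁ + C₂ + 1) * P * (2 * R + 1 : ℝ) ^ d = (2 * R + 1 : ℝ) ^ d *
            ((C₁ + C₂ + 1) * P) := by ring
          rw [e6]
          gcongr
          linarith

end Pool.Agent.LE.MN.H3
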